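import Pool.Agent.H26.GF.All
import Pool.Agent.H21.GH.Univ

/-!
# Polynomial equations for a natural endomorphism of the objects and of the complexes
-/

set_option autoImplicit false
set_option linter.all false

universe v u v' u'

open CategoryTheory Limits Pretriangulated Pool.Agent.Q282.UM Pool.Agent.Q282.UK

namespace Pool.Agent.H26.FB

section general

variable {C : Type u} [Category.{v} C] [Preadditive C] [Linear ℚ C]
  {E : Type u'} [Category.{v'} E] [Preadditive E] [Linear ℚ E]

/-- The polynomial `S` in the endomorphism `x`. -/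
noncomputable def pol {M : C} (x : M ⟶ M) (S : Polynomial ℚ) : M ⟶ M :=
  Polynomial.aeval (R := ℚ) (A := End M) x S

lemma pol_C {M : C} (x : M ⟶ M) (a : ℚ) : pol x (Polynomial.C a) = a • 𝟙 M := by
  unfold pol
  rw [Polynomial.aeval_C, Algebra.algebraMap_eq_smul_one]
  rfl

lemma pol_X {M : C} (x : M ⟶ M) : pol x Polynomial.X = x := Polynomial.aeval_X (R := ℚ) (A := End M) x

lemma pol_zero {M : C} (x : M ⟶ M) : pol x 0 = 0 := map_zero (Polynomial.aeval (R := ℚ) (A := End M) x)

lemma pol_add {M : C} (x : M ⟶ M) (S T : Polynomial ℚ) : pol x (S + T) = pol x S + pol x T :=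
  map_add (Polynomial.aeval (R := ℚ) (A := End M) x) S T

lemma pol_mul {M : C} (x : M ⟶ M) (S T : Polynomial ℚ) : pol x (S * T) = pol x T ≫ pol x S :=
  map_mul (Polynomial.aeval (R := ℚ) (A := End M) x) S T

/-- The endomorphism `x` satisfies a polynomial equation with rational coefficients. -/
def Equation {M : C} (x : M ⟶ M) : Prop := ∃ S : Polynomial ℚ, S ≠ 0 ∧ pol x S = 0

/-- Polynomials commute with the morphisms which commute with the endomorphisms. -/
lemma pol_comm {M N : C} (f : M ⟶ N) (x : M ⟶ M) (y : N ⟶ N) (h : f ≫ y = x ≫ f)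
    (S : Polynomial ℚ) : f ≫ pol y S = pol x S ≫ f := by
  induction S using Polynomial.induction_on with
  | C a => rw [pol_C, pol_C, Linear.comp_smul, Linear.smul_comp, Category.comp_id, Category.id_comp]
  | add p q hp hq => rw [pol_add, pol_add, Preadditive.comp_add, Preadditive.add_comp, hp, hq]
  | monomial n a hn =>
    have e : Polynomial.C a * Polynomial.X ^ (n + 1) =
        Polynomial.X * (Polynomial.C a * Polynomial.X ^ n) := by ring
    rw [e, pol_mul y Polynomial.X, pol_mul x Polynomial.X, pol_X, pol_X, ← Category.assoc, hn,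
      Category.assoc, h, Category.assoc]

/-- An additive functor on the endomorphisms of an object. -/
def mapRing (G : C ⥤ E) [G.Additive] (M : C) : End M →+* End (G.obj M) where
  toFun f := G.map f
  map_one' := G.map_id M
  map_mul' f g := G.map_comp g f
  map_zero' := G.map_zero M M
  map_add' f g := G.map_add

/-- Polynomials commute with additive functors. -/
lemma pol_map (G : C ⥤ E) [G.Additive] {M : C} (x : M ⟶ M) (S : Polynomial ℚ) :
    pol (G.map x) S = G.map (pol x S) :=
  Polynomial.aeval_algHom_apply (R := ℚ) (A := End M) (B := End (G.obj M))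
    (mapRing G M).toRatAlgHom x S

lemma equation_map (G : C ⥤ E) [G.Additive] {M : C} {x : M ⟶ M} (h : Equation x) :
    Equation (G.map x) := by
  obtain ⟨S, h0, h1⟩ := h
  refine ⟨S, h0, ?_⟩
  rw [pol_map, h1, G.map_zero]

lemma equation_smul {M : C} {x y : M ⟶ M} {c : ℚ} (hc : c ≠ 0) (hy : y = c • x) (h : Equation x) :
    Equation y := by
  obtain ⟨S, h0, h1⟩ := h
  refine ⟨S.comp (Polynomial.C c⁻¹ * Polynomial.X), ?_, ?_⟩
  · intro h2
    have h3 := congrArg (fun p => p.coeff S.natDegree) h2
    simp only [Polynomial.comp_C_mul_X_coeff, Polynomial.coeff_zero] at h3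
    rcases mul_eq_zero.mp h3 with h4 | h4
    · exact h0 (Polynomial.leadingCoeff_eq_zero.mp h4)
    · exact (pow_ne_zero _ (inv_ne_zero hc)) h4
  · have h2 : pol y (Polynomial.C c⁻¹ * Polynomial.X) = x := by
      rw [pol_mul, pol_C, pol_X, hy, Linear.comp_smul, Category.comp_id, smul_smul,
        inv_mul_cancel₀ hc, one_smul]
    have h3 : pol y (S.comp (Polynomial.C c⁻¹ * Polynomial.X)) =
        pol (pol y (Polynomial.C c⁻¹ * Polynomial.X)) S :=
      Polynomial.aeval_comp (R := ℚ) (A := End M) y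
    rw [h3, h2, h1]

/-- Direct summands. -/
lemma equation_retract {M N : C} {x : M ⟶ M} {y : N ⟶ N} (s : M ⟶ N) (r : N ⟶ M)
    (hs : s ≫ r = 𝟙 M) (h : s ≫ y = x ≫ s) (hy : Equation y) : Equation x := by
  obtain ⟨S, h0, h1⟩ := hy
  refine ⟨S, h0, ?_⟩
  have h2 := pol_comm s x y h S
  have h3 : pol x S ≫ s = 0 := by rw [← h2, h1, comp_zero]
  calc pol x S = (pol x S ≫ s) ≫ r := by rw [Category.assoc, hs, Category.comp_id]
    _ = 0 := by rw [h3, zero_comp]

variable (F : 𝟭 C ⟶ 𝟭 C)

/-- The natural endomorphism `F` of a complex. -/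
def chainF (K : CochainComplex C ℤ) : K ⟶ K where
  f i := F.app (K.X i)
  comm' i j _ := (F.naturality (K.d i j)).symm

lemma chainF_nat {K L : CochainComplex C ℤ} (f : K ⟶ L) : f ≫ chainF F L = chainF F K ≫ f := by
  ext i
  exact F.naturality (f.f i)

/-- The natural endomorphism `F` of an object of the homotopy category. -/
def onF (K : HK C) : K ⟶ K :=
  (HomotopyCategory.quotient C (ComplexShape.up ℤ)).map (chainF F K.as)

lemma onF_nat {K L : HK C} (f : K ⟶ L) : f ≫ onF F L = onF F K ≫ f := by
  obtain ⟨K⟩ := K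
  obtain ⟨L⟩ := L
  obtain ⟨g, hg⟩ := (HomotopyCategory.quotient C (ComplexShape.up ℤ)).map_surjective
    (X := (K : CochainComplex C ℤ)) (Y := (L : CochainComplex C ℤ)) f
  subst hg
  change (HomotopyCategory.quotient C (ComplexShape.up ℤ)).map g ≫
    (HomotopyCategory.quotient C (ComplexShape.up ℤ)).map (chainF F L) =
    (HomotopyCategory.quotient C (ComplexShape.up ℤ)).map (chainF F K) ≫
    (HomotopyCategory.quotient C (ComplexShape.up ℤ)).map g
  rw [← Functor.map_comp, ← Functor.map_comp, chainF_nat]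

/-- `F` satisfies a polynomial equation on the complex `K`, up to homotopy. -/
def Alg (K : HK C) : Prop := Equation (onF F K)

lemma alg_summand {K L : HK C} (h : IsSummand K L) (hL : Alg F L) : Alg F K := by
  obtain ⟨s, r, hs⟩ := h
  exact equation_retract s r hs (onF_nat F s) hL

lemma alg_iso {K L : HK C} (e : Nonempty (K ≅ L)) (hK : Alg F K) : Alg F L :=
  alg_summand F (IsSummand.of_iso e.some.symm) hK

lemma chainF_shift (K : CochainComplex C ℤ) (n : ℤ) : chainF F (K⟦n⟧) = (chainF F K)⟦n⟧' := by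
  ext i
  rfl

lemma alg_shift [HasZeroObject C] (K : HK C) (n : ℤ) (h : Alg F K) : Alg F (K⟦n⟧) := by
  obtain ⟨K⟩ := K
  let L : CochainComplex C ℤ := K
  have h1 : Alg F (toHK (L⟦n⟧)) := by
    have e := (((HomotopyCategory.quotient C (ComplexShape.up ℤ)).commShiftIso n).hom.naturality
      (chainF F L))
    have h2 : Equation ((shiftFunctor (HK C) n).map (onF F (toHK L))) := equation_map _ h
    refine equation_retract (((HomotopyCategory.quotient C (ComplexShape.up ℤ)).commShiftIso n).hom.app L)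
      (((HomotopyCategory.quotient C (ComplexShape.up ℤ)).commShiftIso n).inv.app L) (by simp) ?_ h2
    change (HomotopyCategory.quotient C (ComplexShape.up ℤ)).map ((chainF F L)⟦n⟧') ≫ _ = _ ≫
      (shiftFunctor (HK C) n).map ((HomotopyCategory.quotient C (ComplexShape.up ℤ)).map (chainF F L)) at e
    rw [← chainF_shift] at e
    exact e.symm
  exact alg_iso F ⟨(shiftHK L n).symm⟩ h1

/-- Distinguished triangles. -/
lemma alg_triangle [HasZeroObject C] [HasBinaryBiproducts C] (T : Triangle (HK C))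
    (hT : T ∈ distTriang (HK C)) (h1 : Alg F T.obj₁) (h3 : Alg F T.obj₃) : Alg F T.obj₂ := by
  obtain ⟨A, hA0, hA⟩ := h1
  obtain ⟨B, hB0, hB⟩ := h3
  refine ⟨A * B, mul_ne_zero hA0 hB0, ?_⟩
  have c := pol_comm T.mor₂ (onF F T.obj₂) (onF F T.obj₃) (onF_nat F T.mor₂) B
  rw [hB, comp_zero] at c
  obtain ⟨g, hg⟩ := Triangle.coyoneda_exact₂ T hT _ c.symm
  have d := pol_comm T.mor₁ (onF F T.obj₁) (onF F T.obj₂) (onF_nat F T.mor₁) A
  rw [hA, zero_comp] at d
  rw [pol_mul, hg, Category.assoc, d, comp_zero]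

/-- Functors which commute with `F` up to a factor. -/
lemma alg_functor (G : C ⥤ C) [G.Additive] {c : ℚ} (hc : c ≠ 0)
    (hG : ∀ M : C, F.app (G.obj M) = c • G.map (F.app M)) (K : HK C) (h : Alg F K) :
    Alg F (onHK G K) := by
  obtain ⟨K⟩ := K
  let L : CochainComplex C ℤ := K
  have h1 : chainF F ((G.mapHomologicalComplex (ComplexShape.up ℤ)).obj L) =
      c • (G.mapHomologicalComplex (ComplexShape.up ℤ)).map (chainF F L) := by
    ext i
    exact hG (L.X i)
  have h2 : Equation ((G.mapHomotopyCategory (ComplexShape.up ℤ)).map (onF F (toHK L))) :=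
    equation_map _ h
  refine equation_smul (x := (G.mapHomotopyCategory (ComplexShape.up ℤ)).map (onF F (toHK L))) hc ?_ h2
  change (HomotopyCategory.quotient C (ComplexShape.up ℤ)).map
    (chainF F ((G.mapHomologicalComplex (ComplexShape.up ℤ)).obj L)) = _
  rw [h1, Functor.map_smul]
  rfl

/-- Objects in degree zero. -/
lemma alg_object [HasZeroObject C] (M : C) (h : Alg F (inZero M)) : Equation (F.app M) := by
  obtain ⟨S, h0, h1⟩ := h
  let L : CochainComplex C ℤ := (HomologicalComplex.single C (ComplexShape.up ℤ) 0).obj M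
  have h2 : (HomotopyCategory.quotient C (ComplexShape.up ℤ)).map (pol (chainF F L) S) =
      (HomotopyCategory.quotient C (ComplexShape.up ℤ)).map 0 := by
    rw [← pol_map, Functor.map_zero]
    exact h1
  have H := HomotopyCategory.homotopyOfEq _ _ h2
  have h3 := H.comm 0
  rw [dNext_eq H.hom (show (ComplexShape.up ℤ).Rel 0 1 from rfl),
    prevD_eq H.hom (show (ComplexShape.up ℤ).Rel (-1) 0 from rfl)] at h3
  have z1 : L.d 0 1 = 0 :=
    (HomologicalComplex.isZero_single_obj_X (ComplexShape.up ℤ) 0 M 1 (by decide)).eq_of_tgt _ _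
  have z2 : L.d (-1) 0 = 0 :=
    (HomologicalComplex.isZero_single_obj_X (ComplexShape.up ℤ) 0 M (-1) (by decide)).eq_of_src _ _
  rw [z1, z2, zero_comp, comp_zero, zero_add, zero_add] at h3
  have h4 : Equation (F.app (L.X 0)) := by
    refine ⟨S, h0, ?_⟩
    have h5 := pol_map (HomologicalComplex.eval C (ComplexShape.up ℤ) 0) (chainF F L) S
    exact h5.trans h3
  let e := HomologicalComplex.singleObjXSelf (ComplexShape.up ℤ) 0 M
  exact equation_retract e.inv e.hom e.inv_hom_id (F.naturality e.inv) h4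

/-- Objects: sums and direct summands. -/
lemma thick_equation [HasBinaryBiproducts C] : IsThick (C := C) fun M => Equation (F.app M) where
  summand := by
    rintro M N ⟨s, r, hs⟩ h
    exact equation_retract s r hs (F.naturality s) h
  zero M hM := ⟨1, one_ne_zero, hM.eq_of_src _ _⟩
  sum M N h h' := by
    obtain ⟨A, hA0, hA⟩ := h
    obtain ⟨B, hB0, hB⟩ := h'
    refine ⟨A * B, mul_ne_zero hA0 hB0, ?_⟩
    have h1 := pol_comm (biprod.inl : M ⟶ M ⊞ N) _ _ (F.naturality _) (A * B)
    have h2 := pol_comm (biprod.inr : N ⟶ M ⊞ N) _ _ (F.naturality _) (A * B)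
    refine biprod.hom_ext' _ _ ?_ ?_
    · refine h1.trans ?_
      rw [pol_mul, hA, comp_zero, zero_comp, comp_zero]
    · refine h2.trans ?_
      rw [pol_mul, hB, zero_comp, zero_comp, comp_zero]

/-- Bounded complexes. -/
lemma alg_bounded (K : CochainComplex C ℤ) (a b : ℤ) (hz : ∀ i, i < a ∨ b < i → IsZero (K.X i))
    (h : ∀ i, Equation (F.app (K.X i))) : Alg F (toHK K) := by
  choose S hS0 hS using h
  have h1 : pol (chainF F K) (∏ i ∈ Finset.Icc a b, S i) = 0 := by
    ext i
    have h5 := pol_map (HomologicalComplex.eval C (ComplexShape.up ℤ) i) (chainF F K)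
      (∏ i ∈ Finset.Icc a b, S i)
    refine h5.symm.trans ?_
    change pol (F.app (K.X i)) (∏ i ∈ Finset.Icc a b, S i) = 0
    by_cases hi : i ∈ Finset.Icc a b
    · rw [← Finset.mul_prod_erase _ _ hi, pol_mul, hS i, comp_zero]
    · refine (hz i ?_).eq_of_src _ _
      rw [Finset.mem_Icc, not_and_or, not_le, not_le] at hi
      exact hi
  refine ⟨∏ i ∈ Finset.Icc a b, S i, Finset.prod_ne_zero_iff.mpr fun i _ => hS0 i, ?_⟩
  have h2 := pol_map (HomotopyCategory.quotient C (ComplexShape.up ℤ)) (chainF F K)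
    (∏ i ∈ Finset.Icc a b, S i)
  refine h2.trans ?_
  rw [h1, Functor.map_zero]

end general

end Pool.Agent.H26.FB
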