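import Pool.Agent.H26.FB.Alg
import Pool.Agent.H21.GH.Mot
import Pool.Graph.R_pool_sql_team_seeded_64922ed1.X312.CK.Main

/-!
# Polynomial equations for the Frobenius of weight complexes
-/

set_option autoImplicit false
set_option linter.all false

universe v u w

open CategoryTheory Limits Pretriangulated AlgebraicGeometry Pool.Agent.Y116.UV Pool.Agent.Z125.UN
  Pool.Agent.Q282.UM Pool.Agent.Q282.UK Pool.Agent.H26.GF
open scoped Classical

namespace Pool.Agent.H26.FB

variable {C : Type u} [Category.{v} C] [Preadditive C] [HasZeroObject C] [HasBinaryBiproducts C]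
  [HasFiniteBiproducts C] {k : Type} [Field k] {D : Weights k C}

/-- A property of complexes which is closed under isomorphisms, shifts, direct summands and
extensions in triangles. -/
structure IsStable (P : HK C → Prop) : Prop where
  iso : ∀ {K L : HK C}, Nonempty (K ≅ L) → P K → P L
  shift : ∀ (K : HK C) (n : ℤ), P K → P (K⟦n⟧)
  summand : ∀ {K L : HK C}, IsSummand K L → P L → P K
  triangle : ∀ T ∈ Pretriangulated.distinguishedTriangles (C := HK C),
    P T.obj₁ → P T.obj₃ → P T.obj₂

variable {P : HK C → Prop}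

lemma tri_mid' (hP : IsStable P) {K L M : HK C} (h : IsDistinguished K L M) (hK : P K)
    (hM : P M) : P L := by
  obtain ⟨a, b, d, h⟩ := h
  exact hP.triangle _ h hK hM

lemma tri_right' (hP : IsStable P) {K L M : HK C} (h : IsDistinguished K L M) (hK : P K)
    (hL : P L) : P M := by
  obtain ⟨a, b, d, h⟩ := h
  exact hP.triangle _ (Pretriangulated.rot_of_distTriang _ h) hL (hP.shift _ 1 hK)

lemma tri_left' (hP : IsStable P) {K L M : HK C} (h : IsDistinguished K L M) (hL : P L)
    (hM : P M) : P K := by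
  obtain ⟨a, b, d, h⟩ := h
  exact hP.triangle _ (Pretriangulated.inv_rot_of_distTriang _ h) (hP.shift _ (-1) hM) hL

lemma all_iso' (hP : IsStable P) {X Y : Sch k} (e : Nonempty (D.W X ≅ D.W Y))
    (h : AllTwists D P X) : AllTwists D P Y := by
  obtain ⟨e⟩ := e
  exact fun n => hP.iso ⟨((D.tw n).mapHomotopyCategory (ComplexShape.up ℤ)).mapIso e⟩ (h n)

lemma all_twist' (hD : IsWeights D) (hP : IsStable P) {X Y : Sch k} {m : ℤ}
    (e : Nonempty (D.W X ≅ onHK (D.tw m) (D.W Y))) : AllTwists D P X ↔ AllTwists D P Y := by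
  obtain ⟨e⟩ := e
  have h1 : ∀ n, Nonempty (onHK (D.tw n) (D.W X) ≅ onHK (D.tw (m + n)) (D.W Y)) := by
    intro n
    obtain ⟨e1⟩ := hD.tw_add m n
    obtain ⟨e2⟩ := onHK_comp e1 (D.W Y)
    exact ⟨((D.tw n).mapHomotopyCategory (ComplexShape.up ℤ)).mapIso e ≪≫ e2.symm⟩
  constructor
  · intro h n
    have h2 := h1 (n - m)
    rw [add_sub_cancel] at h2
    exact hP.iso h2 (h (n - m))
  · intro h n
    exact hP.iso ⟨(h1 n).some.symm⟩ (h (m + n))

lemma all_laurent' (hD : IsWeights D) (hP : IsStable P) {B : Type} [CommRing B] [Algebra k B]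
    [Algebra.FiniteType k B] (h : AllTwists D P (aff k (LaurentPolynomial B))) :
    AllTwists D P (aff k B) := by
  intro n
  have h1 := hD.torus B
  have h2 : IsSummand (onHK (D.tw (n + 1)) (onHK (D.tw (-1)) (D.W (aff k B))))
      (onHK (D.tw (n + 1)) (D.W (torS k B))) :=
    h1.map ((D.tw (n + 1)).mapHomotopyCategory (ComplexShape.up ℤ))
  have h3 := hP.summand h2 (h (n + 1))
  obtain ⟨e1⟩ := hD.tw_add (-1) (n + 1)
  obtain ⟨e2⟩ := onHK_comp e1 (D.W (aff k B))
  have h4 := hP.iso ⟨e2.symm⟩ h3
  rw [show (-1 : ℤ) + (n + 1) = n by ring] at h4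
  exact h4

lemma all_space' (hD : IsWeights D) (hP : IsStable P) (hp : AllTwists D P (aff k k)) (n : ℕ) :
    AllTwists D P (aff k (MvPolynomial (Fin n) k)) := by
  have h2 := hD.bundle k (n + 1) (f1 k n) (aff k k) (𝟙 _) ⟨inferInstance, range_id n⟩
  have h3 : AllTwists D P (jouS (f1 k n)) := (all_twist' hD hP h2).mpr hp
  exact all_iso' hP (hD.iso (ft_aff True) ⟨(affIso (jouOne k n)).symm⟩) h3

/-- The closure properties. -/
theorem bnd_all' (hD : IsWeights D) (hP : IsStable P) (hp : AllTwists D P (aff k k)) :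
    Bnd True fun X : Sch k => AllTwists D P X where
  iso hX e h := all_iso' hP (hD.iso hX e) h
  total i j h ht hZ hU n :=
    tri_mid' hP (onHK_triangle (D.tw n) (hD.triangle i j h ht)) (hU n) (hZ n)
  opened i j h ht hZ hX n :=
    tri_left' hP (onHK_triangle (D.tw n) (hD.triangle i j h ht)) (hX n) (hZ n)
  closed i j h ht hX hU n :=
    tri_right' hP (onHK_triangle (D.tw n) (hD.triangle i j h ht)) (hU n) (hX n)
  space := all_space' hD hP hp
  jouanolou B _ _ _ m f U j hj hr h := (all_twist' hD hP (hD.bundle B m f U j ⟨hj, hr⟩)).mp h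
  torus B _ _ _ h := all_laurent' hD hP h
  bundle B _ _ _ m f U j hj hr h := (all_twist' hD hP (hD.bundle B m f U j ⟨hj, hr⟩)).mpr h

variable [Linear ℚ C] (F : 𝟭 C ⟶ 𝟭 C)

lemma stable_alg : IsStable (Alg F) where
  iso e h := alg_iso F e h
  shift K n h := alg_shift F K n h
  summand h hL := alg_summand F h hL
  triangle T hT h1 h3 := alg_triangle F T hT h1 h3

/-- `F` is the Frobenius: it is the identity on the weight complex of the point (which is its motive in
degree zero), and it acts on the twist `M(n)` as `q ^ (-n)` times the twist of its action on `M`. -/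
structure IsFrob (D : Weights k C) : Prop where
  point : onF F (D.W (aff k k)) = 𝟙 _
  twist : ∀ (n : ℤ) (M : C), F.app ((D.tw n).obj M) =
    ((Nat.card k : ℚ) ^ (-n)) • (D.tw n).map (F.app M)

/-- The weight complexes are bounded complexes of direct summands of sums of motives of smooth
projective schemes. -/
def IsBounded (D : Weights k C) : Prop :=
  ∀ X : Sch k, FT True X → ∃ (K : CochainComplex C ℤ) (a b : ℤ), Nonempty (D.W X ≅ toHK K) ∧
    (∀ i, i < a ∨ b < i → IsZero (K.X i)) ∧ ∀ i, ∃ (r : ℕ) (Y : Fin r → Sch k) (m : Fin r → ℤ),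
      (∀ j, IsSmoothProjective (Y j)) ∧ IsSummand (K.X i) (⨁ fun j => (D.tw (m j)).obj (D.h (Y j)))

lemma equation_functor (G : C ⥤ C) [G.Additive] {c : ℚ} (hc : c ≠ 0)
    (hG : ∀ M : C, F.app (G.obj M) = c • G.map (F.app M)) (M : C) (h : Equation (F.app M)) :
    Equation (F.app (G.obj M)) :=
  equation_smul hc (hG M) (equation_map G h)

variable {F}

lemma all_alg [Finite k] (hD : IsWeights D) (hF : IsFrob F D) (X : Sch k) :
    AllTwists D (Alg F) X ↔ Alg F (D.W X) := by
  have hq : (Nat.card k : ℚ) ≠ 0 := Nat.cast_ne_zero.mpr Nat.card_pos.ne'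
  constructor
  · intro h
    exact alg_iso F (onHK_id hD.tw_zero.some (D.W X)) (h 0)
  · intro h n
    exact alg_functor F (D.tw n) (zpow_ne_zero (-n) hq) (hF.twist n) _ h

lemma alg_of_varieties [Finite k] (hD : IsWeights D) (hb : IsBounded D) (hF : IsFrob F D)
    (h : ∀ X : Sch k, IsSmoothProjective X → Equation (F.app (D.h X))) (X : Sch k)
    (hX : FT True X) : Alg F (D.W X) := by
  have hq : (Nat.card k : ℚ) ≠ 0 := Nat.cast_ne_zero.mpr Nat.card_pos.ne'
  obtain ⟨K, a, b, e, hz, hK⟩ := hb X hX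
  refine alg_iso F ⟨e.some.symm⟩ (alg_bounded F K a b hz fun i => ?_)
  obtain ⟨r, Y, m, h1, h2⟩ := hK i
  have hT := thick_equation (C := C) F
  refine hT.summand h2 ?_
  exact of_biproduct (fun hs h => hT.summand hs h) hT.zero hT.sum _ fun j =>
    equation_functor F (D.tw (m j)) (zpow_ne_zero (-(m j)) hq) (hF.twist (m j)) _ (h (Y j) (h1 j))

lemma equation_of_weights (hD : IsWeights D) (X : Sch k) (hX : IsSmoothProjective X)
    (h : Alg F (D.W X)) : Equation (F.app (D.h X)) :=
  alg_object F _ (alg_iso F (hD.projective X hX) h)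

lemma alg_point (hF : IsFrob F D) : Alg F (D.W (aff k k)) := by
  refine ⟨Polynomial.X - Polynomial.C 1, Polynomial.X_sub_C_ne_zero 1, ?_⟩
  rw [sub_eq_add_neg, pol_add, pol_X, ← Polynomial.C_neg, pol_C, hF.point]
  simp

/-- **Graph hypersurfaces decide whether the Frobenius satisfies polynomial equations.** -/
theorem equation_iff [Finite k] (hD : IsWeights D) (hb : IsBounded D) (hF : IsFrob F D) :
    (∀ X : Sch k, IsSmoothProjective X → Equation (F.app (D.h X))) ↔
      ∀ (n : ℕ) (t : Fin n → k) (N : ℕ) (G : SimpleGraph (Fin N))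
        (β : Option (Fin n) ⊕ Option (Fin n) → Fin N), IsBook G β → Alg F (D.W (bookS t G β)) := by
  constructor
  · intro h n t N G β hβ
    exact alg_of_varieties hD hb hF h _ (ft_aff True)
  · intro h X hX
    refine equation_of_weights hD X hX ((all_alg hD hF X).mp ?_)
    refine universal_all (P := fun X => AllTwists D (Alg F) X) (bnd_all' hD (stable_alg F) ?_) ?_
      (fun n t N G β hβ => (all_alg hD hF _).mpr (h n t N G β hβ)) X (ft_projective hX)
    · exact (all_alg hD hF _).mpr (alg_point hF)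
    · exact (all_alg hD hF _).mpr (alg_point hF)

/-- The same over the prime field. -/
theorem equation_iff_prime {p : ℕ} [Fact p.Prime] {D : Weights (ZMod p) C} (hD : IsWeights D)
    (hb : IsBounded D) (hF : IsFrob F D) :
    (∀ X : Sch (ZMod p), IsSmoothProjective X → Equation (F.app (D.h X))) ↔
      ∀ (N : ℕ) (G : SimpleGraph (Fin N)), Alg F (D.W (Pool.Agent.H21.GH.kirS (ZMod p) G)) := by
  have hk : Finite (ZMod p) := inferInstance
  have hq : Pool.Agent.Q193.LT.Frac (ZMod p) :=
    Pool.Agent.Q193.LT.frac_of_surj (ZMod.intCast_surjective)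
  constructor
  · intro h N G
    exact alg_of_varieties hD hb hF h _ (Pool.Agent.H21.GH.ft_kirS G True)
  · intro h X hX
    refine equation_of_weights hD X hX ((all_alg hD hF X).mp ?_)
    refine Pool.Agent.H21.GH.universal (P := fun X => AllTwists D (Alg F) X) hq
      (bnd_all' hD (stable_alg F) ?_)
      (fun N G => (all_alg hD hF _).mpr (h N G)) X (ft_projective hX)
    exact (all_alg hD hF _).mpr (alg_point hF)

end Pool.Agent.H26.FB
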